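import Mathlib

set_option autoImplicit false

namespace Pool.Agent.H.MP_1ac54c_co

open Finset Equiv Classical

variable {n : ℕ}

structure Reg (R : Perm (Fin n) → Fin n → Fin n → Prop) : Prop where
  mono : ∀ π i v i' v', R π i v → i ≤ i' → v ≤ v' → R π i' v'
  sw : ∀ π i j, R π i (π i) → R π j (π j) → R π i (π j) → R π j (π i) → R (π * swap i j) = R π

noncomputable def W (R : Perm (Fin n) → Fin n → Fin n → Prop) (π : Perm (Fin n)) :
    (Fin n → Fin n → Prop) × (Fin n → Option (Fin n)) :=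
  (R π, fun i => if R π i (π i) then none else some (π i))

variable {R : Perm (Fin n) → Fin n → Fin n → Prop}

lemma W_eq {π ρ : Perm (Fin n)} (h : W R π = W R ρ) :
    R π = R ρ ∧ (∀ i, R π i (π i) ↔ R ρ i (ρ i)) ∧ ∀ i, π i ≠ ρ i → R π i (π i) := by
  have h2 := congrFun (congrArg Prod.snd h)
  simp only [W] at h2
  refine ⟨congrArg Prod.fst h, fun i => ?_, fun i hi => ?_⟩
  · have := h2 i
    split_ifs at this with a b <;> simp_all
  · have := h2 i
    split_ifs at this with a b <;> simp_all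

lemma extremal (hR : Reg R) (t : Fin n → ℤ) (π : Perm (Fin n)) : ∃ ρ, W R ρ = W R π ∧
    ∀ i j, R ρ i (ρ i) → R ρ j (ρ j) → R ρ i (ρ j) → R ρ j (ρ i) → t i < t j → ρ i < ρ j := by
  obtain ⟨ρ, h1, h2⟩ := exists_max_image (univ.filter (fun ρ => W R ρ = W R π))
    (fun ρ => ∑ i, t i * (ρ i : ℕ)) ⟨π, by simp⟩
  rw [mem_filter] at h1
  refine ⟨ρ, h1.2, fun i j a b c d e => ?_⟩
  have hij : i ≠ j := fun g => by rw [g] at e; exact lt_irrefl _ e
  by_contra g
  have g1 : ρ j < ρ i := lt_of_le_of_ne (not_lt.1 g) (fun g2 => hij (ρ.injective g2).symm)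
  have hW : W R (ρ * swap i j) = W R ρ := by
    have := hR.sw ρ i j a b c d
    refine Prod.ext this (funext fun k => ?_)
    simp only [W, this, Perm.mul_apply]
    by_cases k1 : k = i
    · subst k1; simp [a, c]
    by_cases k2 : k = j
    · subst k2; simp [b, d]
    rw [swap_apply_of_ne_of_ne k1 k2]
  have := h2 (ρ * swap i j) (by simp [hW, h1.2])
  rw [← sub_nonpos, ← sum_sub_distrib, Fintype.sum_eq_add i j hij (fun k hk => by
    simp [Perm.mul_apply, swap_apply_of_ne_of_ne hk.1 hk.2])] at this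
  simp only [Perm.mul_apply, swap_apply_left, swap_apply_right] at this
  have g2 : ((ρ j : ℕ) : ℤ) < (ρ i : ℕ) := by exact_mod_cast g1
  nlinarith

lemma first_diff {π ρ : Perm (Fin n)} (h : π ≠ ρ) : ∃ i, π i ≠ ρ i ∧
    (∀ k, i ≤ k → i ≤ π.symm (ρ k)) ∧ (∀ k, i ≤ k → i ≤ ρ.symm (π k)) := by
  obtain ⟨i, h1, h2⟩ := exists_min_image (univ.filter (fun i => π i ≠ ρ i)) id (by
    by_contra g
    rw [not_nonempty_iff_eq_empty, filter_eq_empty_iff] at g
    exact h (Equiv.ext fun i => not_not.1 (g (mem_univ i))))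
  have h3 : ∀ k, k < i → π k = ρ k := fun k hk => by
    by_contra g
    exact absurd (h2 k (by simpa using g)) (not_le.2 hk)
  refine ⟨i, (mem_filter.1 h1).2, fun k hk => ?_, fun k hk => ?_⟩
  · by_contra g
    have := h3 _ (not_le.1 g)
    rw [apply_symm_apply] at this
    rw [← ρ.injective this] at g
    exact g hk
  · by_contra g
    have := h3 _ (not_le.1 g)
    rw [apply_symm_apply] at this
    rw [π.injective this] at g
    exact g hk

lemma inj_of {γ : Type*} (A : Set (Perm (Fin n))) (f : Perm (Fin n) → γ)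
    (h : ∀ π ∈ A, ∀ ρ ∈ A, f π = f ρ → ∀ i, π i < ρ i → (∀ k, i ≤ k → i ≤ π.symm (ρ k)) →
      (∀ k, i ≤ k → i ≤ ρ.symm (π k)) → False) : Set.InjOn f A := by
  intro π h1 ρ h2 e
  by_contra g
  obtain ⟨i, a, b, c⟩ := first_diff g
  rcases lt_or_gt_of_ne a with d | d
  · exact h π h1 ρ h2 e i d b c
  · exact h ρ h2 π h1 e.symm i d c b

lemma card_of {α γ : Type*} (A B : Set α) (f g : α → γ) (hf : Set.InjOn f A) (hg : Set.InjOn g B)
    (h1 : ∀ a ∈ A, ∃ b ∈ B, g b = f a) (h2 : ∀ b ∈ B, ∃ a ∈ A, f a = g b) : A.ncard = B.ncard := by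
  rw [← hf.ncard_image, ← hg.ncard_image]
  congr 1
  ext x
  constructor
  · rintro ⟨a, ha, rfl⟩; exact h1 a ha
  · rintro ⟨b, hb, rfl⟩; exact h2 b hb

def Up (R : Perm (Fin n) → Fin n → Fin n → Prop) (g : ℕ) : Set (Perm (Fin n)) :=
  {π | ∀ i j : Fin n, i.val + g ≤ j → R π i (π i) → ¬ π i < π j}
def Dn (R : Perm (Fin n) → Fin n → Fin n → Prop) (g : ℕ) : Set (Perm (Fin n)) :=
  {π | ∀ i j : Fin n, i.val + g ≤ j → R π i (π j) → ¬ π j < π i}

theorem G1 (hR : Reg R) : (Up R 1).ncard = (Dn R 1).ncard := by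
  refine card_of _ _ (W R) (W R) (inj_of _ _ fun π h1 ρ _ e i a b _ => ?_)
    (inj_of _ _ fun π _ ρ h2 e i a _ c => ?_) (fun π _ => ?_) (fun π _ => ?_)
  · have b1 : i ≠ π.symm (ρ i) := fun g => a.ne (by rw [← (symm_apply_eq π).1 g.symm])
    have b2 : i < π.symm (ρ i) := lt_of_le_of_ne (b i le_rfl) b1
    exact h1 i _ b2 ((W_eq e).2.2 i a.ne) (by simpa using a)
  · have b1 : i ≠ ρ.symm (π i) := fun g => a.ne (by rw [← (symm_apply_eq ρ).1 g.symm])
    have b2 : i < ρ.symm (π i) := lt_of_le_of_ne (c i le_rfl) b1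
    refine h2 i _ b2 ?_ (by simpa using a)
    rw [apply_symm_apply, ← (W_eq e).1]
    exact (W_eq e).2.2 i a.ne
  · obtain ⟨ρ, e, h⟩ := extremal hR (fun i => (i : ℕ)) π
    refine ⟨ρ, fun i j a b c => ?_, e⟩
    have a' : i ≤ j := by rw [Fin.le_def]; omega
    exact lt_asymm c (h i j (hR.mono _ _ _ _ _ b le_rfl c.le) (hR.mono _ _ _ _ _ b a' le_rfl) b
      (hR.mono _ _ _ _ _ b a' c.le) (by omega))
  · obtain ⟨ρ, e, h⟩ := extremal hR (fun i => -(i : ℕ)) π
    refine ⟨ρ, fun i j a b c => ?_, e⟩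
    have a' : i ≤ j := by rw [Fin.le_def]; omega
    exact lt_asymm c (h j i (hR.mono _ _ _ _ _ b a' c.le) b (hR.mono _ _ _ _ _ b a' le_rfl)
      (hR.mono _ _ _ _ _ b le_rfl c.le) (by omega))

def MA (R : Perm (Fin n) → Fin n → Fin n → Prop) (π : Perm (Fin n)) : Set ℕ :=
  {m | ∃ i j : Fin n, i.val = m ∧ j.val = m + 1 ∧ R π i (π i) ∧ R π j (π j) ∧ π i < π j}
def MB (R : Perm (Fin n) → Fin n → Fin n → Prop) (π : Perm (Fin n)) : Set ℕ :=
  {m | ∃ i j : Fin n, i.val = m ∧ j.val = m + 1 ∧ R π i (π i) ∧ R π j (π j) ∧ π j < π i}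

noncomputable def tw (M : Set ℕ) (i : ℕ) : ℤ :=
  if i ∈ M then i + 1 else if 1 ≤ i ∧ i - 1 ∈ M then i - 1 else i

lemma tw_far {M : Set ℕ} (hM : ∀ m ∈ M, m + 1 ∉ M) {i j : ℕ} (h : i + 2 ≤ j) : tw M i < tw M j := by
  unfold tw
  split_ifs with a b c d e f g k <;> try omega
  have : j - 1 ≠ i + 1 := fun z => hM i a (z ▸ c.2)
  omega

lemma tw_in {M : Set ℕ} (hM : ∀ m ∈ M, m + 1 ∉ M) {i : ℕ} (h : i ∈ M) : tw M (i + 1) < tw M i := by
  simp [tw, h, hM i h]

lemma tw_out {M : Set ℕ} {i : ℕ} (h : i ∉ M) : tw M i < tw M (i + 1) := by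
  unfold tw
  simp only [h, Nat.add_sub_cancel, and_false, if_false]
  split_ifs <;> omega

theorem G2 (hR : Reg R)
    (hA : ∀ π (i j : Fin n) v, j.val = i + 1 → R π i (π i) → R π j v → R π i v) :
    (Up R 2).ncard = (Dn R 2).ncard := by
  refine card_of _ _ (fun π => (W R π, MA R π)) (fun π => (W R π, MB R π))
    (inj_of _ _ fun π h1 ρ _ e i a b _ => ?_)
    (inj_of _ _ fun π _ ρ h2 e i a _ c => ?_) (fun π hπ => ?_) (fun π hπ => ?_)
  · obtain ⟨e, e'⟩ := Prod.ext_iff.1 e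
    simp only at e e'
    have b1 : i ≠ π.symm (ρ i) := fun g => a.ne (by rw [← (symm_apply_eq π).1 g.symm])
    have b2 : i < π.symm (ρ i) := lt_of_le_of_ne (b i le_rfl) b1
    have r := (W_eq e).2.2 i a.ne
    have a1 : π i < π (π.symm (ρ i)) := by simpa using a
    have b3 : (π.symm (ρ i)).val = i + 1 := by
      by_contra g
      exact h1 i _ (by rw [Fin.lt_def] at b2; omega) r a1
    have m : i.val ∈ MA R π := ⟨i, _, rfl, b3, r, hR.mono _ _ _ _ _ r b2.le a1.le, a1⟩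
    rw [e'] at m
    obtain ⟨i', j, m1, m2, -, -, m3⟩ := m
    obtain rfl : i' = i := Fin.ext m1
    have b4 := b j (by rw [Fin.le_def]; omega)
    have b5 : π.symm (ρ j) ≠ i' := fun g => by
      rw [(symm_apply_eq π).1 g] at m3; exact lt_asymm a m3
    have b6 : π.symm (ρ j) ≠ π.symm (ρ i') := fun g => m3.ne (π.symm.injective g).symm
    refine h1 i' (π.symm (ρ j)) ?_ r (by simpa using a.trans m3)
    rw [Fin.le_def] at b4
    rw [Ne, Fin.ext_iff] at b5 b6
    omega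
  · obtain ⟨e, e'⟩ := Prod.ext_iff.1 e
    simp only at e e'
    have b1 : i ≠ ρ.symm (π i) := fun g => a.ne (by rw [← (symm_apply_eq ρ).1 g.symm])
    have b2 : i < ρ.symm (π i) := lt_of_le_of_ne (c i le_rfl) b1
    have r := (W_eq e).2.2 i a.ne
    have r' : R ρ i (ρ (ρ.symm (π i))) := by rw [apply_symm_apply, ← (W_eq e).1]; exact r
    have a1 : ρ (ρ.symm (π i)) < ρ i := by simpa using a
    have b3 : (ρ.symm (π i)).val = i + 1 := by
      by_contra g
      exact h2 i _ (by rw [Fin.lt_def] at b2; omega) r' a1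
    have m : i.val ∈ MB R ρ := ⟨i, _, rfl, b3, hR.mono _ _ _ _ _ r' le_rfl a1.le,
      hR.mono _ _ _ _ _ r' b2.le le_rfl, a1⟩
    rw [← e'] at m
    obtain ⟨i', j, m1, m2, -, m4, m3⟩ := m
    obtain rfl : i' = i := Fin.ext m1
    have b4 := c j (by rw [Fin.le_def]; omega)
    have b5 : ρ.symm (π j) ≠ i' := fun g => by
      rw [(symm_apply_eq ρ).1 g] at m3; exact lt_asymm a m3
    have b6 : ρ.symm (π j) ≠ ρ.symm (π i') := fun g => m3.ne (ρ.symm.injective g)
    refine h2 i' (ρ.symm (π j)) ?_ ?_ (by simpa using m3.trans a)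
    · rw [Fin.le_def] at b4
      rw [Ne, Fin.ext_iff] at b5 b6
      omega
    · rw [apply_symm_apply, ← (W_eq e).1]
      exact hA π i' j _ m2 r m4
  · have hM : ∀ m ∈ MA R π, m + 1 ∉ MA R π := by
      rintro m ⟨i, j, a1, a2, a3, -, a5⟩ ⟨i', j', b1, b2, -, -, b5⟩
      obtain rfl : j = i' := Fin.ext (by omega)
      exact hπ i j' (by omega) a3 (a5.trans b5)
    obtain ⟨ρ, e, h⟩ := extremal hR (fun i => tw (MA R π) i) π
    refine ⟨ρ, fun i j a b c => ?_, Prod.ext e ?_⟩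
    · have a' : i ≤ j := by rw [Fin.le_def]; omega
      exact lt_asymm c (h i j (hR.mono _ _ _ _ _ b le_rfl c.le) (hR.mono _ _ _ _ _ b a' le_rfl) b
        (hR.mono _ _ _ _ _ b a' c.le) (tw_far hM a))
    · ext m
      constructor
      · rintro ⟨i, j, a1, a2, a3, a4, a5⟩
        by_contra g
        refine lt_asymm a5 (h i j a3 a4 (hA _ i j _ (by omega) a3 a4)
          (hR.mono _ _ _ _ _ a4 le_rfl a5.le) ?_)
        rw [a1, a2]; exact tw_out g
      · intro g
        obtain ⟨i, j, a1, a2, a3, a4, -⟩ := id g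
        rw [← (W_eq e).2.1] at a3 a4
        refine ⟨i, j, a1, a2, a3, a4, h j i a4 a3 (hR.mono _ _ _ _ _ a3 ?_ le_rfl)
          (hA _ i j _ (by omega) a3 a4) ?_⟩
        · rw [Fin.le_def]; omega
        · rw [a1, a2]; exact tw_in hM g
  · have hM : ∀ m ∈ MB R π, m + 1 ∉ MB R π := by
      rintro m ⟨i, j, a1, a2, a3, a4, a5⟩ ⟨i', j', b1, b2, -, b4, b5⟩
      obtain rfl : j = i' := Fin.ext (by omega)
      exact hπ i j' (by omega) (hA _ i j _ (by omega) a3 (hA _ j j' _ (by omega) a4 b4))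
        (b5.trans a5)
    obtain ⟨ρ, e, h⟩ := extremal hR (fun i => -tw (MB R π) i) π
    refine ⟨ρ, fun i j a b c => ?_, Prod.ext e ?_⟩
    · have a' : i ≤ j := by rw [Fin.le_def]; omega
      exact lt_asymm c (h j i (hR.mono _ _ _ _ _ b a' c.le) b (hR.mono _ _ _ _ _ b a' le_rfl)
        (hR.mono _ _ _ _ _ b le_rfl c.le) (neg_lt_neg (tw_far hM a)))
    · ext m
      constructor
      · rintro ⟨i, j, a1, a2, a3, a4, a5⟩
        by_contra g
        refine lt_asymm a5 (h j i a4 a3 (hR.mono _ _ _ _ _ a3 (by rw [Fin.le_def]; omega) le_rfl)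
          (hA _ i j _ (by omega) a3 a4) (neg_lt_neg ?_))
        rw [a1, a2]; exact tw_out g
      · intro g
        obtain ⟨i, j, a1, a2, a3, a4, -⟩ := id g
        rw [← (W_eq e).2.1] at a3 a4
        have := h i j a3 a4 (hA _ i j _ (by omega) a3 a4)
          (hR.mono _ _ _ _ _ a3 (by rw [Fin.le_def]; omega) le_rfl)
          (neg_lt_neg (by rw [a1, a2]; exact tw_in hM g))
        exact ⟨i, j, a1, a2, a3, a4, this⟩

end Pool.Agent.H.MP_1ac54c_co
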