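import Pool.Agent.H.MP_1ac54c_co.A

set_option autoImplicit false

namespace Pool.Agent.H.MP_1ac54c_co

open Finset Equiv Classical

variable {n : ℕ}

def Contains (q : Fin 4 → ℕ) (j : Fin 3) (π : Perm (Fin n)) : Prop :=
  ∃ f : Fin 4 → Fin n, StrictMono f ∧ (∀ x y, π (f x) < π (f y) ↔ q x < q y) ∧
    (f j.castSucc).val + 2 ≤ (f j.succ).val

noncomputable def av (n : ℕ) (q : Fin 4 → ℕ) (j : Fin 3) : ℕ :=
  {π : Perm (Fin n) | ¬ Contains q j π}.ncard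

def Rg (C : Fin n → Fin n → Prop) (g1 g2 : ℕ) (π : Perm (Fin n)) (i v : Fin n) : Prop :=
  ∃ a b : Fin n, a.val + g1 ≤ b ∧ b.val + g2 ≤ i ∧ C (π a) (π b) ∧ π a < v ∧ π b < v

section
variable {C : Fin n → Fin n → Prop} {g1 g2 : ℕ}

lemma white (h2 : 1 ≤ g2) {π : Perm (Fin n)} {i v : Fin n} (h : Rg C g1 g2 π i v) :
    ∃ a b : Fin n, (a.val + g1 ≤ b ∧ b.val + g2 ≤ i ∧ C (π a) (π b) ∧ π a < v ∧ π b < v) ∧
      ¬ Rg C g1 g2 π a (π a) ∧ ¬ Rg C g1 g2 π b (π b) := by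
  obtain ⟨a, b, h⟩ := h
  induction b using WellFoundedLT.induction generalizing a with
  | ind b ih =>
    by_cases ha : Rg C g1 g2 π a (π a)
    · obtain ⟨a', b', c1, c2, c3, c4, c5⟩ := ha
      exact ih b' (by rw [Fin.lt_def]; omega) a'
        ⟨c1, by omega, c3, c4.trans h.2.2.2.1, c5.trans h.2.2.2.1⟩
    by_cases hb : Rg C g1 g2 π b (π b)
    · obtain ⟨a', b', c1, c2, c3, c4, c5⟩ := hb
      exact ih b' (by rw [Fin.lt_def]; omega) a'
        ⟨c1, by omega, c3, c4.trans h.2.2.2.2, c5.trans h.2.2.2.2⟩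
    exact ⟨a, b, h, ha, hb⟩

lemma sw_le (h2 : 1 ≤ g2) {π : Perm (Fin n)} {i j : Fin n} (hi : Rg C g1 g2 π i (π i))
    (hj : Rg C g1 g2 π j (π j)) (k v : Fin n) (h : Rg C g1 g2 π k v) :
    Rg C g1 g2 (π * swap i j) k v := by
  obtain ⟨a, b, h, ha, hb⟩ := white h2 h
  refine ⟨a, b, ?_⟩
  rwa [Perm.mul_apply, Perm.mul_apply,
    swap_apply_of_ne_of_ne (x := a) (a := i) (b := j) (fun e => ha (e ▸ hi)) (fun e => ha (e ▸ hj)),
    swap_apply_of_ne_of_ne (x := b) (a := i) (b := j) (fun e => hb (e ▸ hi)) (fun e => hb (e ▸ hj))]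

lemma reg (h2 : 1 ≤ g2) : Reg (Rg C g1 g2) := by
  refine ⟨?_, fun π i j a b c d => ?_⟩
  · rintro π i v i' v' ⟨a, b, c1, c2, c3, c4, c5⟩ h1 h3
    exact ⟨a, b, c1, by rw [Fin.le_def] at h1; omega, c3, c4.trans_le h3, c5.trans_le h3⟩
  · funext k v
    refine propext ⟨fun h => ?_, sw_le h2 a b k v⟩
    have := sw_le h2 (π := π * swap i j) (i := i) (j := j)
      (by simpa using sw_le h2 a b _ _ c) (by simpa using sw_le h2 a b _ _ d) k v h
    simpa [mul_assoc] using this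

lemma adj (π : Perm (Fin n)) (i j v : Fin n) (h : j.val = i + 1) (hi : Rg C g1 1 π i (π i))
    (hj : Rg C g1 1 π j v) : Rg C g1 1 π i v := by
  obtain ⟨a, b, ⟨c1, c2, c3⟩, -, hb⟩ := white le_rfl hj
  have : b ≠ i := fun e => hb (e ▸ hi)
  rw [Ne, Fin.ext_iff] at this
  exact ⟨a, b, c1, by omega, c3⟩

end

def gp (j k : Fin 3) : ℕ := if j = k then 2 else 1

lemma cont_iff (q : Fin 4 → ℕ) (j : Fin 3) (π : Perm (Fin n)) : Contains q j π ↔
    ∃ a b c d : Fin n, a.val + gp j 0 ≤ b ∧ b.val + gp j 1 ≤ c ∧ c.val + gp j 2 ≤ d ∧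
      ∀ x y, π (![a, b, c, d] x) < π (![a, b, c, d] y) ↔ q x < q y := by
  constructor
  · rintro ⟨f, h1, h2, h3⟩
    have a1 : (f 0).val < f 1 := h1 (by decide)
    have a2 : (f 1).val < f 2 := h1 (by decide)
    have a3 : (f 2).val < f 3 := h1 (by decide)
    refine ⟨f 0, f 1, f 2, f 3, ?_, ?_, ?_, fun x y => ?_⟩
    · fin_cases j <;> simp [gp] at h3 ⊢ <;> omega
    · fin_cases j <;> simp [gp] at h3 ⊢ <;> omega
    · fin_cases j <;> simp [gp] at h3 ⊢ <;> omega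
    · rw [← h2]
      fin_cases x <;> fin_cases y <;> rfl
  · rintro ⟨a, b, c, d, h1, h2, h3, h4⟩
    refine ⟨![a, b, c, d], Fin.strictMono_iff_lt_succ.2 fun i => ?_, h4, ?_⟩
    · fin_cases j <;> fin_cases i <;> simp [gp] at h1 h2 h3 ⊢ <;> omega
    · fin_cases j <;> simp [gp] at h1 h2 h3 ⊢ <;> omega

lemma e1234 (j : Fin 3) : av n ![1, 2, 3, 4] j =
    (Up (Rg (n := n) (· < ·) (gp j 0) (gp j 1)) (gp j 2)).ncard := by
  rw [av]
  congr 1
  ext π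
  simp only [Set.mem_ofPred_eq, cont_iff, Up, Rg]
  constructor
  · rintro h c d h3 ⟨a, b, h1, h2, h4, h5, h6⟩ h7
    refine h ⟨a, b, c, d, h1, h2, h3, fun x y => ?_⟩
    fin_cases x <;> fin_cases y <;> simp <;> omega
  · rintro h ⟨a, b, c, d, h1, h2, h3, h4⟩
    exact h c d h3 ⟨a, b, h1, h2, (h4 0 1).2 (by simp), (h4 0 2).2 (by simp), (h4 1 2).2 (by simp)⟩
      ((h4 2 3).2 (by simp))

lemma e2134 (j : Fin 3) : av n ![2, 1, 3, 4] j =
    (Up (Rg (n := n) (· > ·) (gp j 0) (gp j 1)) (gp j 2)).ncard := by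
  rw [av]
  congr 1
  ext π
  simp only [Set.mem_ofPred_eq, cont_iff, Up, Rg]
  constructor
  · rintro h c d h3 ⟨a, b, h1, h2, h4, h5, h6⟩ h7
    refine h ⟨a, b, c, d, h1, h2, h3, fun x y => ?_⟩
    fin_cases x <;> fin_cases y <;> simp <;> omega
  · rintro h ⟨a, b, c, d, h1, h2, h3, h4⟩
    exact h c d h3 ⟨a, b, h1, h2, (h4 1 0).2 (by simp), (h4 0 2).2 (by simp), (h4 1 2).2 (by simp)⟩
      ((h4 2 3).2 (by simp))

lemma e1243 (j : Fin 3) : av n ![1, 2, 4, 3] j =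
    (Dn (Rg (n := n) (· < ·) (gp j 0) (gp j 1)) (gp j 2)).ncard := by
  rw [av]
  congr 1
  ext π
  simp only [Set.mem_ofPred_eq, cont_iff, Dn, Rg]
  constructor
  · rintro h c d h3 ⟨a, b, h1, h2, h4, h5, h6⟩ h7
    refine h ⟨a, b, c, d, h1, h2, h3, fun x y => ?_⟩
    fin_cases x <;> fin_cases y <;> simp <;> omega
  · rintro h ⟨a, b, c, d, h1, h2, h3, h4⟩
    exact h c d h3 ⟨a, b, h1, h2, (h4 0 1).2 (by simp), (h4 0 3).2 (by simp), (h4 1 3).2 (by simp)⟩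
      ((h4 3 2).2 (by simp))

lemma e2143 (j : Fin 3) : av n ![2, 1, 4, 3] j =
    (Dn (Rg (n := n) (· > ·) (gp j 0) (gp j 1)) (gp j 2)).ncard := by
  rw [av]
  congr 1
  ext π
  simp only [Set.mem_ofPred_eq, cont_iff, Dn, Rg]
  constructor
  · rintro h c d h3 ⟨a, b, h1, h2, h4, h5, h6⟩ h7
    refine h ⟨a, b, c, d, h1, h2, h3, fun x y => ?_⟩
    fin_cases x <;> fin_cases y <;> simp <;> omega
  · rintro h ⟨a, b, c, d, h1, h2, h3, h4⟩
    exact h c d h3 ⟨a, b, h1, h2, (h4 1 0).2 (by simp), (h4 0 3).2 (by simp), (h4 1 3).2 (by simp)⟩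
      ((h4 3 2).2 (by simp))

def rc (π : Perm (Fin n)) : Perm (Fin n) := Fin.revPerm * π * Fin.revPerm

lemma rc_rc (π : Perm (Fin n)) : rc (rc π) = π := by ext i; simp [rc]

lemma cont_rc {q q' : Fin 4 → ℕ} (h : ∀ x y, q' x < q' y ↔ q y.rev < q x.rev) {j : Fin 3}
    {π : Perm (Fin n)} (c : Contains q j π) : Contains q' j.rev (rc π) := by
  obtain ⟨f, h1, h2, h3⟩ := c
  refine ⟨fun x => (f x.rev).rev, fun x y g => ?_, fun x y => ?_, ?_⟩
  · exact Fin.rev_lt_rev.2 (h1 (Fin.rev_lt_rev.2 g))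
  · rw [h, ← h2]; simp [rc]
  · have a := (f j.succ).2
    simp only [Fin.rev_castSucc, Fin.rev_succ, Fin.rev_rev, Fin.val_rev]
    omega

lemma av_rc {q q' : Fin 4 → ℕ} (h : ∀ x y, q' x < q' y ↔ q y.rev < q x.rev) (j : Fin 3) :
    av n q j = av n q' j.rev := by
  refine card_of _ _ id rc (Set.injOn_id _) (Function.LeftInverse.injective rc_rc).injOn
    (fun π hπ => ⟨rc π, fun c => hπ ?_, rc_rc π⟩) (fun π hπ => ⟨rc π, fun c => hπ ?_, rfl⟩)
  · simpa [rc_rc] using cont_rc (q' := q) (fun x y => by simp [h]) c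
  · simpa [rc_rc] using cont_rc h c

lemma s12 (j : Fin 3) : av n ![1, 2, 3, 4] j = av n ![1, 2, 4, 3] j := by
  rw [e1234, e1243]
  fin_cases j
  · exact G1 (reg le_rfl)
  · exact G1 (reg one_le_two)
  · exact G2 (reg le_rfl) adj

lemma s21 (j : Fin 3) : av n ![2, 1, 3, 4] j = av n ![2, 1, 4, 3] j := by
  rw [e2134, e2143]
  fin_cases j
  · exact G1 (reg le_rfl)
  · exact G1 (reg one_le_two)
  · exact G2 (reg le_rfl) adj

theorem main (n : ℕ) (j : Fin 3) : av n ![1, 2, 3, 4] j = av n ![1, 2, 4, 3] j ∧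
    av n ![1, 2, 4, 3] j = av n ![2, 1, 4, 3] j := by
  refine ⟨s12 j, ?_⟩
  rw [← s12, ← s21, av_rc (q' := ![1, 2, 3, 4]) (by decide) j, s12,
    av_rc (q' := ![2, 1, 3, 4]) (by decide) j.rev, Fin.rev_rev]

end Pool.Agent.H.MP_1ac54c_co
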